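import Pool.Agent.Lib.helper11.L2Op
import Pool.Agent.Lib.helper11.L2Def

set_option autoImplicit false

namespace Pool.Agent.Results.MP_5b767b_an.NoInclusion

open Set Filter Pool.Agent.Lib.H11L2Def
open scoped ENNReal

/-- The set `E_v` of edges at `v` in the multigraph with endpoint map `ends`. -/
def edgesAt {V E : Type} (ends : E → Sym2 V) (v : V) : Set E := {e | v ∈ ends e}

open Classical in
/-- The other endpoint `r_v(e)` of an edge `e` at `v` (it is `v` for a loop). -/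
noncomputable def other {V E : Type} (ends : E → Sym2 V) (v : V) (e : E) : V :=
  if h : v ∈ ends e then Sym2.Mem.other h else v

/-- Uniformly bounded degrees and weights. -/
def UnifBounded {V E : Type} (ends : E → Sym2 V) (α : V → E → ℂ) : Prop :=
  (∃ D : ℕ, ∀ v, (edgesAt ends v).Finite ∧ (edgesAt ends v).ncard ≤ D) ∧
    ∃ C : ℝ, ∀ v, ∀ e ∈ edgesAt ends v, ‖α v e‖ ≤ C

/-- Connectedness. -/
def Connected {V E : Type} (ends : E → Sym2 V) : Prop :=
  ∀ u v : V, Relation.ReflTransGen (fun a b => ∃ e, ends e = s(a, b)) u v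

/-- The vertices at distance at most one from `A`. -/
def ball1 {V E : Type} (ends : E → Sym2 V) (A : Set V) : Set V :=
  {v | ∃ u ∈ A, u = v ∨ ∃ e, ends e = s(u, v)}

/-- Amenability. -/
def Amenable {V E : Type} (ends : E → Sym2 V) : Prop :=
  ∃ F : ℕ → Set V, (∀ k, (F k).Finite ∧ (F k).Nonempty) ∧ Monotone F ∧ (⋃ k, F k) = univ ∧
    Tendsto (fun k => ((ball1 ends (F k) \ F k).ncard : ℝ) / ((F k).ncard : ℝ)) atTop (nhds 0)

/-- Covering of weighted graphs. -/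
def Covers {V₁ E₁ V₂ E₂ : Type} (ends₁ : E₁ → Sym2 V₁) (α₁ : V₁ → E₁ → ℂ)
    (ends₂ : E₂ → Sym2 V₂) (α₂ : V₂ → E₂ → ℂ) : Prop :=
  ∃ (φ : V₁ → V₂) (ψ : E₁ → E₂), Function.Surjective φ ∧ Function.Surjective ψ ∧
    (∀ e, ends₂ (ψ e) = Sym2.map φ (ends₁ e)) ∧
    (∀ v, BijOn ψ (edgesAt ends₁ v) (edgesAt ends₂ (φ v))) ∧
    ∀ v, ∀ e ∈ edgesAt ends₁ v, α₁ v e = α₂ (φ v) (ψ e)

/-- `H` is the Laplace type operator of the weighted graph. -/
def IsLaplace {V E : Type} (ends : E → Sym2 V) (α : V → E → ℂ)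
    (H : L2 V →L[ℂ] L2 V) : Prop :=
  ∀ (f : L2 V) (v : V),
    (H f).val v = ∑ᶠ e ∈ edgesAt ends v, α v e * f.val (other ends v e)

/-- The spectrum of a bounded operator on `ℓ²(V)`. -/
def spec {V : Type} (H : L2 V →L[ℂ] L2 V) : Set ℂ := spectrum ℂ H

open Pool.Agent.Lib.H11L2Op

lemma other_eq {V E : Type} (ends : E → Sym2 V) {v u : V} {e : E} (h : ends e = s(v, u)) :
    other ends v e = u := by
  have hv : v ∈ ends e := by rw [h]; exact Sym2.mem_mk_left _ _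
  unfold other
  rw [dif_pos hv]
  exact Sym2.congr_right.1 ((Sym2.other_spec hv).trans h)

abbrev V1 := List Bool × ℕ

def par : V1 → V1
  | (w, 0) => (w.tail, 0)
  | (w, n + 1) => (w, n)

def ends1 (x : V1) : Sym2 V1 := s(x, par x)

def ends2 : Fin 3 ⊕ ℕ → Sym2 ℕ
  | Sum.inl _ => s(0, 0)
  | Sum.inr n => s(n + 1, n)

def col : List Bool → Fin 3
  | [] => 0
  | true :: w => col w + 1
  | false :: w => col w + 2

def psi : V1 → Fin 3 ⊕ ℕ
  | (w, 0) => Sum.inl (col w)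
  | (_, n + 1) => Sum.inr n

lemma E1_zero (w : List Bool) :
    edgesAt ends1 (w, 0) = {(w, 0), (true :: w, 0), (false :: w, 0), (w, 1)} := by
  ext ⟨u, m⟩
  rcases m with _ | m
  · rcases u with _ | ⟨b, u⟩
    · simp [edgesAt, ends1, par, eq_comm]
    · cases b <;> simp [edgesAt, ends1, par, eq_comm]
  · simp only [edgesAt, ends1, par, mem_setOf_eq, Sym2.mem_iff, Prod.mk.injEq, mem_insert_iff,
      mem_singleton_iff]
    constructor
    · rintro (⟨-, h⟩ | ⟨rfl, rfl⟩)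
      · omega
      · simp
    · rintro (⟨-, h⟩ | ⟨-, h⟩ | ⟨-, h⟩ | ⟨rfl, h⟩)
      · omega
      · omega
      · omega
      · exact Or.inr ⟨rfl, by omega⟩

lemma E1_succ (w : List Bool) (n : ℕ) :
    edgesAt ends1 (w, n + 1) = {(w, n + 1), (w, n + 2)} := by
  ext ⟨u, m⟩
  rcases m with _ | m
  · simp [edgesAt, ends1, par]
  · simp only [edgesAt, ends1, par, mem_setOf_eq, Sym2.mem_iff, Prod.mk.injEq, mem_insert_iff,
      mem_singleton_iff]
    constructor
    · rintro (⟨rfl, h⟩ | ⟨rfl, h⟩)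
      · exact Or.inl ⟨rfl, by omega⟩
      · exact Or.inr ⟨rfl, by omega⟩
    · rintro (⟨rfl, h⟩ | ⟨rfl, h⟩)
      · exact Or.inl ⟨rfl, by omega⟩
      · exact Or.inr ⟨rfl, by omega⟩

lemma E2_zero : edgesAt ends2 0 = {Sum.inl 0, Sum.inl 1, Sum.inl 2, Sum.inr 0} := by
  ext e
  rcases e with i | n
  · fin_cases i <;> simp [edgesAt, ends2]
  · simp [edgesAt, ends2, eq_comm]

lemma E2_succ (n : ℕ) : edgesAt ends2 (n + 1) = {Sum.inr n, Sum.inr (n + 1)} := by
  ext e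
  rcases e with i | m
  · simp [edgesAt, ends2]
  · simp [edgesAt, ends2, eq_comm]

def L1 : (V1 → ℂ) →ₗ[ℂ] (V1 → ℂ) where
  toFun f x := match x with
    | (w, 0) => f (w.tail, 0) + (f (true :: w, 0) + (f (false :: w, 0) + f (w, 1)))
    | (w, n + 1) => f (w, n) + f (w, n + 2)
  map_add' f g := by
    ext ⟨w, n⟩
    rcases n with _ | n <;> simp only [Pi.add_apply] <;> ring
  map_smul' c f := by
    ext ⟨w, n⟩
    rcases n with _ | n <;> simp only [Pi.smul_apply, smul_eq_mul, RingHom.id_apply] <;> ring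

def LB : (ℕ → ℂ) →ₗ[ℂ] (ℕ → ℂ) where
  toFun f x := match x with
    | 0 => f 0 + (f 0 + (f 0 + f 1))
    | n + 1 => f n + f (n + 2)
  map_add' f g := by
    ext n
    rcases n with _ | n <;> simp only [Pi.add_apply] <;> ring
  map_smul' c f := by
    ext n
    rcases n with _ | n <;> simp only [Pi.smul_apply, smul_eq_mul, RingHom.id_apply] <;> ring

lemma cs4 (a b c d : ℂ) : ENNReal.ofReal (‖a + (b + (c + d))‖ ^ 2) ≤ ENNReal.ofReal (13 / 4) *
    (ENNReal.ofReal (7 / 10) * ENNReal.ofReal (‖a‖ ^ 2) + (ENNReal.ofReal (10 / 7) *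
      (ENNReal.ofReal (‖b‖ ^ 2) + ENNReal.ofReal (‖c‖ ^ 2)) +
        ENNReal.ofReal (5 / 2) * ENNReal.ofReal (‖d‖ ^ 2))) := by
  rw [← ENNReal.ofReal_add (by positivity) (by positivity), ← ENNReal.ofReal_mul (by positivity),
    ← ENNReal.ofReal_mul (by positivity), ← ENNReal.ofReal_mul (by positivity),
    ← ENNReal.ofReal_add (by positivity) (by positivity),
    ← ENNReal.ofReal_add (by positivity) (by positivity), ← ENNReal.ofReal_mul (by positivity)]
  apply ENNReal.ofReal_le_ofReal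
  have h1 : ‖a + (b + (c + d))‖ ≤ ‖a‖ + (‖b‖ + (‖c‖ + ‖d‖)) :=
    (norm_add_le _ _).trans (add_le_add le_rfl ((norm_add_le _ _).trans
      (add_le_add le_rfl (norm_add_le _ _))))
  have h2 := pow_le_pow_left₀ (norm_nonneg _) h1 2
  refine h2.trans ?_
  nlinarith [sq_nonneg (7 / 10 * ‖a‖ - 10 / 7 * ‖b‖), sq_nonneg (7 / 10 * ‖a‖ - 10 / 7 * ‖c‖),
    sq_nonneg (2 / 5 * ‖a‖ - 10 / 7 * ‖d‖), sq_nonneg (‖b‖ - ‖c‖),
    sq_nonneg (2 / 5 * ‖b‖ - 7 / 10 * ‖d‖), sq_nonneg (2 / 5 * ‖c‖ - 7 / 10 * ‖d‖),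
    sq_nonneg ‖a‖, sq_nonneg ‖b‖, sq_nonneg ‖c‖, sq_nonneg ‖d‖]

lemma cs2 (a d : ℂ) : ENNReal.ofReal (‖a + d‖ ^ 2) ≤ ENNReal.ofReal (13 / 4) *
    (ENNReal.ofReal (2 / 5) * ENNReal.ofReal (‖a‖ ^ 2) +
        ENNReal.ofReal (5 / 2) * ENNReal.ofReal (‖d‖ ^ 2)) := by
  rw [← ENNReal.ofReal_mul (by positivity), ← ENNReal.ofReal_mul (by positivity),
    ← ENNReal.ofReal_add (by positivity) (by positivity), ← ENNReal.ofReal_mul (by positivity)]
  apply ENNReal.ofReal_le_ofReal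
  have h2 := pow_le_pow_left₀ (norm_nonneg _) (norm_add_le a d) 2
  refine h2.trans ?_
  nlinarith [sq_nonneg (2 / 5 * ‖a‖ - 5 / 2 * ‖d‖), sq_nonneg ‖a‖, sq_nonneg ‖d‖]

lemma fin_ineq (g A B T : ℝ≥0∞) :
    ENNReal.ofReal (7 / 10) * (g + ((g + A) + (g + A))) + (ENNReal.ofReal (10 / 7) * A +
      ENNReal.ofReal (5 / 2) * B) + (ENNReal.ofReal (2 / 5) * ((g + A) + (B + T)) +
        ENNReal.ofReal (5 / 2) * T) ≤ ENNReal.ofReal (13 / 4) * ((g + A) + (B + T)) := by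
  by_cases h : (g + A) + (B + T) = ⊤
  · rw [h, ENNReal.mul_top (a := ENNReal.ofReal (13 / 4)) (by simp)]
    exact le_top
  · simp only [ENNReal.add_eq_top, not_or] at h
    obtain ⟨⟨h1, h2⟩, h3, h4⟩ := h
    rw [← ENNReal.ofReal_toReal h1, ← ENNReal.ofReal_toReal h2, ← ENNReal.ofReal_toReal h3,
      ← ENNReal.ofReal_toReal h4]
    have p1 := g.toReal_nonneg
    have p2 := A.toReal_nonneg
    have p3 := B.toReal_nonneg
    have p4 := T.toReal_nonneg
    generalize g.toReal = g at *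
    generalize A.toReal = A at *
    generalize B.toReal = B at *
    generalize T.toReal = T at *
    simp (disch := positivity) only [← ENNReal.ofReal_add, ← ENNReal.ofReal_mul]
    apply ENNReal.ofReal_le_ofReal
    linarith

lemma L1_bound (f : V1 → ℂ) : ∑' x, ENNReal.ofReal (‖L1 f x‖ ^ 2) ≤
    ENNReal.ofReal ((13 / 4) ^ 2) * ∑' x, ENNReal.ofReal (‖f x‖ ^ 2) := by
  set G : List Bool → ℕ → ℝ≥0∞ := fun w n => ENNReal.ofReal (‖f (w, n)‖ ^ 2) with hG
  have e0 : ∀ Φ : V1 → ℝ≥0∞, ∑' x, Φ x = ∑' w, Φ (w, 0) + ∑' w, ∑' n, Φ (w, n + 1) := by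
    intro Φ
    rw [ENNReal.tsum_prod', ← ENNReal.tsum_add]
    exact tsum_congr fun w => tsum_nat _
  set A := ∑' w, G (true :: w) 0 + ∑' w, G (false :: w) 0 with hA
  set B := ∑' w, G w 1 with hB
  set T := ∑' w, ∑' n, G w (n + 2) with hT
  have e1 : ∑' w, G w 0 = G [] 0 + A := tsum_list _
  have e2 : ∑' w, ∑' n, G w (n + 1) = B + T := by
    rw [hB, hT, ← ENNReal.tsum_add]
    exact tsum_congr fun w => tsum_nat _
  have e3 : ∑' w : List Bool, G w.tail 0 = G [] 0 + ((G [] 0 + A) + (G [] 0 + A)) := by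
    rw [tsum_list, ← e1]; rfl
  have e4 : ∑' w, ∑' n, G w n = (G [] 0 + A) + (B + T) := by
    rw [← e1, ← e2, ← ENNReal.tsum_add]
    exact tsum_congr fun w => tsum_nat _
  have e5 : ∑' x, ENNReal.ofReal (‖f x‖ ^ 2) = (G [] 0 + A) + (B + T) := by
    rw [← e4, ENNReal.tsum_prod']
  have b1 : ∑' w, ENNReal.ofReal (‖L1 f (w, 0)‖ ^ 2) ≤ ENNReal.ofReal (13 / 4) *
      (ENNReal.ofReal (7 / 10) * (G [] 0 + ((G [] 0 + A) + (G [] 0 + A))) +
        (ENNReal.ofReal (10 / 7) * A + ENNReal.ofReal (5 / 2) * B)) := by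
    refine (ENNReal.tsum_le_tsum fun w => cs4 _ _ _ _).trans (le_of_eq ?_)
    simp only [ENNReal.tsum_mul_left, ENNReal.tsum_add]
    rw [← e3]
  have b2 : ∑' w, ∑' n, ENNReal.ofReal (‖L1 f (w, n + 1)‖ ^ 2) ≤ ENNReal.ofReal (13 / 4) *
      (ENNReal.ofReal (2 / 5) * ((G [] 0 + A) + (B + T)) + ENNReal.ofReal (5 / 2) * T) := by
    refine (ENNReal.tsum_le_tsum fun w => ENNReal.tsum_le_tsum fun n => cs2 _ _).trans
      (le_of_eq ?_)
    simp only [ENNReal.tsum_mul_left, ENNReal.tsum_add]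
    rw [← e4]
  rw [e0, e5]
  refine (add_le_add b1 b2).trans ?_
  rw [← mul_add, pow_two (13 / 4 : ℝ), ENNReal.ofReal_mul (by norm_num), mul_assoc]
  exact mul_le_mul_right (fin_ineq _ _ _ _) _

lemma L2_bound (f : ℕ → ℂ) : ∑' x, ENNReal.ofReal (‖LB f x‖ ^ 2) ≤
    ENNReal.ofReal (6 ^ 2) * ∑' x, ENNReal.ofReal (‖f x‖ ^ 2) := by
  set G : ℕ → ℝ≥0∞ := fun n => ENNReal.ofReal (‖f n‖ ^ 2) with hG
  set S := ∑' x, G x with hS
  have h0 : ∀ n, G n ≤ S := fun n => ENNReal.le_tsum n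
  have h2 : ∑' n, G (n + 2) ≤ S :=
    ENNReal.tsum_comp_le_tsum_of_injective (f := fun n => n + 2) (add_left_injective 2) G
  have b1 : ENNReal.ofReal (‖LB f 0‖ ^ 2) ≤ ENNReal.ofReal (13 / 4) *
      (ENNReal.ofReal (7 / 10) * S + (ENNReal.ofReal (10 / 7) * (S + S) +
        ENNReal.ofReal (5 / 2) * S)) := by
    refine (cs4 _ _ _ _).trans ?_
    gcongr <;> exact h0 _
  have b2 : ∑' n, ENNReal.ofReal (‖LB f (n + 1)‖ ^ 2) ≤ ENNReal.ofReal (13 / 4) *
      (ENNReal.ofReal (2 / 5) * S + ENNReal.ofReal (5 / 2) * S) := by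
    refine (ENNReal.tsum_le_tsum fun n => cs2 _ _).trans ?_
    simp only [ENNReal.tsum_mul_left, ENNReal.tsum_add]
    gcongr
  rw [tsum_nat]
  refine (add_le_add b1 b2).trans ?_
  rw [← two_mul, ← mul_assoc, ← add_mul, ← add_mul, ← add_mul, ← mul_assoc, ← mul_assoc, ← add_mul]
  refine mul_le_mul_left ?_ _
  rw [show (2 : ℝ≥0∞) = ENNReal.ofReal 2 by simp]
  simp (disch := positivity) only [← ENNReal.ofReal_add, ← ENNReal.ofReal_mul]
  apply ENNReal.ofReal_le_ofReal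
  norm_num

lemma col_ne (c : Fin 3) : c ≠ c + 1 ∧ c ≠ c + 2 ∧ c + 1 ≠ c + 2 := by
  revert c; decide

lemma col_surj (c i : Fin 3) : i = c ∨ i = c + 1 ∨ i = c + 2 := by
  revert c i; decide

lemma covers : Covers ends1 (fun _ _ => 1) ends2 (fun _ _ => 1) := by
  refine ⟨Prod.snd, psi, fun n => ⟨([], n), rfl⟩, ?_, ?_, ?_, fun _ _ _ => rfl⟩
  · rintro (i | n)
    · rcases col_surj 0 i with rfl | rfl | rfl
      · exact ⟨([], 0), rfl⟩
      · exact ⟨([true], 0), rfl⟩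
      · exact ⟨([false], 0), rfl⟩
    · exact ⟨([], n + 1), rfl⟩
  · rintro ⟨w, _ | n⟩ <;> rfl
  · rintro ⟨w, _ | n⟩
    · rw [E1_zero]
      obtain ⟨h1, h2, h3⟩ := col_ne (col w)
      refine ⟨?_, ?_, ?_⟩
      · rintro x (rfl | rfl | rfl | rfl) <;> simp [edgesAt, psi, ends2]
      · rintro x (rfl | rfl | rfl | rfl) y (rfl | rfl | rfl | rfl) h <;>
          simp_all [psi, col, eq_comm]
      · rintro (i | n) h
        · rcases col_surj (col w) i with rfl | rfl | rfl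
          · exact ⟨(w, 0), by simp, rfl⟩
          · exact ⟨(true :: w, 0), by simp, rfl⟩
          · exact ⟨(false :: w, 0), by simp, rfl⟩
        · have : n = 0 := by simpa [edgesAt, ends2, eq_comm] using h
          subst this
          exact ⟨(w, 1), by simp, rfl⟩
    · rw [E1_succ, E2_succ]
      refine ⟨?_, ?_, ?_⟩
      · rintro x (rfl | rfl) <;> simp [psi]
      · rintro x (rfl | rfl) y (rfl | rfl) h <;> simp_all [psi]
      · rintro x (rfl | rfl)
        · exact ⟨(w, n + 1), by simp, rfl⟩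
        · exact ⟨(w, n + 2), by simp, rfl⟩

lemma bounded1 : UnifBounded ends1 (fun _ _ => 1) := by
  refine ⟨⟨4, ?_⟩, 1, fun _ _ _ => by simp⟩
  rintro ⟨w, _ | n⟩
  · rw [E1_zero]
    refine ⟨toFinite _, ?_⟩
    refine (ncard_insert_le _ _).trans (Nat.succ_le_succ ((ncard_insert_le _ _).trans
      (Nat.succ_le_succ ((ncard_insert_le _ _).trans (by simp)))))
  · rw [E1_succ]
    exact ⟨toFinite _, (ncard_insert_le _ _).trans (by simp)⟩

lemma bounded2 : UnifBounded ends2 (fun _ _ => 1) := by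
  refine ⟨⟨4, ?_⟩, 1, fun _ _ _ => by simp⟩
  rintro (_ | n)
  · rw [E2_zero]
    refine ⟨toFinite _, ?_⟩
    refine (ncard_insert_le _ _).trans (Nat.succ_le_succ ((ncard_insert_le _ _).trans
      (Nat.succ_le_succ ((ncard_insert_le _ _).trans (by simp)))))
  · rw [E2_succ]
    exact ⟨toFinite _, (ncard_insert_le _ _).trans (by simp)⟩

lemma connected1 : Connected ends1 := by
  have hs : ∀ a b : V1, (∃ e, ends1 e = s(a, b)) → ∃ e, ends1 e = s(b, a) :=
    fun a b ⟨e, he⟩ => ⟨e, he.trans Sym2.eq_swap⟩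
  have h0 : ∀ w : List Bool,
      Relation.ReflTransGen (fun a b => ∃ e, ends1 e = s(a, b)) ((w, 0) : V1) ([], 0) := by
    intro w
    induction w with
    | nil => exact .refl
    | cons b w ih => exact .head ⟨(b :: w, 0), rfl⟩ ih
  have h1 : ∀ (w : List Bool) (n : ℕ),
      Relation.ReflTransGen (fun a b => ∃ e, ends1 e = s(a, b)) ((w, n) : V1) ([], 0) := by
    intro w n
    induction n with
    | zero => exact h0 w
    | succ n ih => exact .head ⟨(w, n + 1), rfl⟩ ih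
  intro u v
  refine (h1 u.1 u.2).trans ?_
  have h2 := h1 v.1 v.2
  clear h1 h0
  generalize (([], 0) : V1) = z at h2 ⊢
  induction h2 with
  | refl => exact .refl
  | tail _ h ih => exact .head (hs _ _ h) ih

lemma amenable1 : Amenable ends1 := by
  let W : ℕ → Set (List Bool) := fun k => {w | w.length ≤ k}
  have hW : ∀ k, (W k).Finite := fun k => List.finite_length_le Bool k
  have hWne : ∀ k, (W k).Nonempty := fun k => ⟨[], by simp [W]⟩
  refine ⟨fun k => W k ×ˢ Iic k, fun k => ⟨(hW k).prod (finite_Iic k),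
    (hWne k).prod ⟨0, by simp⟩⟩, ?_, ?_, ?_⟩
  · rintro a b hab ⟨w, n⟩ ⟨h1, h2⟩
    exact ⟨le_trans h1 hab, le_trans h2 hab⟩
  · refine eq_univ_of_forall fun ⟨w, n⟩ => mem_iUnion.2 ⟨max w.length n, ?_, ?_⟩
    · exact le_max_left w.length n
    · exact le_max_right w.length n
  · refine squeeze_zero (fun k => by positivity) (fun k => ?_)
      (tendsto_const_div_atTop_nhds_zero_nat (3 : ℝ) |>.comp (tendsto_add_atTop_nat 1))
    have hsub : ball1 ends1 (W k ×ˢ Iic k) \ W k ×ˢ Iic k ⊆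
        (fun w => (true :: w, 0)) '' W k ∪ ((fun w => (false :: w, 0)) '' W k ∪
          (fun w => (w, k + 1)) '' W k) := by
      rintro v ⟨⟨⟨w, n⟩, ⟨hw, hn⟩, h | ⟨e, he⟩⟩, hv⟩
      · exact absurd (h ▸ ⟨hw, hn⟩) hv
      · rcases Sym2.eq_iff.1 he with ⟨rfl, rfl⟩ | ⟨rfl, h⟩
        · exfalso
          apply hv
          rcases n with _ | n
          · exact ⟨le_trans (show w.tail.length ≤ w.length by simp) hw, hn⟩
          · exact ⟨hw, le_trans (Nat.le_succ n) hn⟩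
        · obtain ⟨u, _ | m⟩ := e
          · simp only [par, Prod.mk.injEq] at h
            obtain ⟨rfl, rfl⟩ := h
            rcases u with _ | ⟨_ | _, u⟩
            · exact absurd ⟨hw, hn⟩ hv
            · exact Or.inr (Or.inl ⟨u, hw, rfl⟩)
            · exact Or.inl ⟨u, hw, rfl⟩
          · simp only [par, Prod.mk.injEq] at h
            obtain ⟨rfl, rfl⟩ := h
            have h1 : m ≤ k := hn
            have h2 : ¬ m + 1 ≤ k := fun h => hv ⟨hw, h⟩
            have h3 : m = k := by omega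
            subst h3
            exact Or.inr (Or.inr ⟨u, hw, rfl⟩)
    have h1 := ncard_le_ncard hsub (((hW k).image _).union (((hW k).image _).union ((hW k).image _)))
    have h2 := ncard_union_le ((fun w => ((true :: w, 0) : V1)) '' W k)
      ((fun w => (false :: w, 0)) '' W k ∪ (fun w => (w, k + 1)) '' W k)
    have h3 := ncard_union_le ((fun w => ((false :: w, 0) : V1)) '' W k)
      ((fun w => (w, k + 1)) '' W k)
    have h4 := ncard_image_le (f := fun w => ((true :: w, 0) : V1)) (hW k)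
    have h5 := ncard_image_le (f := fun w => ((false :: w, 0) : V1)) (hW k)
    have h6 := ncard_image_le (f := fun w => ((w, k + 1) : V1)) (hW k)
    have h7 : (ball1 ends1 (W k ×ˢ Iic k) \ W k ×ˢ Iic k).ncard ≤ 3 * (W k).ncard := by omega
    have h8 : (W k ×ˢ Iic k).ncard = (W k).ncard * (k + 1) := by
      rw [ncard_prod]; simp
    have h9 : 0 < (W k).ncard := (ncard_pos (hW k)).2 (hWne k)
    simp only [Function.comp_apply]
    rw [h8, div_le_div_iff₀ (by positivity) (by positivity)]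
    have h10 : ((ball1 ends1 (W k ×ˢ Iic k) \ W k ×ˢ Iic k).ncard : ℝ) ≤ 3 * (W k).ncard := by
      exact_mod_cast h7
    push_cast
    nlinarith [show (0 : ℝ) ≤ k + 1 by positivity]

lemma laplace1 (f : V1 → ℂ) (v : V1) :
    L1 f v = ∑ᶠ e ∈ edgesAt ends1 v, (1 : ℂ) * f (other ends1 v e) := by
  obtain ⟨w, _ | n⟩ := v
  · rw [E1_zero, finsum_mem_insert _ (by simp) (toFinite _),
      finsum_mem_insert _ (by simp) (toFinite _), finsum_mem_pair (by simp),
      other_eq ends1 (u := (w.tail, 0)) rfl, 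
      other_eq ends1 (v := (w, 0)) (e := (true :: w, 0)) (u := (true :: w, 0)) Sym2.eq_swap,
      other_eq ends1 (v := (w, 0)) (e := (false :: w, 0)) (u := (false :: w, 0)) Sym2.eq_swap,
      other_eq ends1 (v := (w, 0)) (e := (w, 1)) (u := (w, 1)) Sym2.eq_swap]
    simp [L1]
  · rw [E1_succ, finsum_mem_pair (by simp), other_eq ends1 (u := (w, n)) rfl,
      other_eq ends1 (v := (w, n + 1)) (e := (w, n + 2)) (u := (w, n + 2)) Sym2.eq_swap]
    simp [L1]

lemma laplace2 (f : ℕ → ℂ) (v : ℕ) :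
    LB f v = ∑ᶠ e ∈ edgesAt ends2 v, (1 : ℂ) * f (other ends2 v e) := by
  obtain _ | n := v
  · rw [E2_zero, finsum_mem_insert _ (by simp) (toFinite _),
      finsum_mem_insert _ (by simp) (toFinite _), finsum_mem_pair (by simp),
      other_eq ends2 (e := Sum.inl 0) (u := 0) rfl, other_eq ends2 (e := Sum.inl 1) (u := 0) rfl,
      other_eq ends2 (e := Sum.inl 2) (u := 0) rfl, 
      other_eq ends2 (v := 0) (e := Sum.inr 0) (u := 1) Sym2.eq_swap]
    simp [LB]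
  · rw [E2_succ, finsum_mem_pair (by simp), other_eq ends2 (e := Sum.inr n) (u := n) rfl,
      other_eq ends2 (v := n + 1) (e := Sum.inr (n + 1)) (u := n + 2) Sym2.eq_swap]
    simp [LB]

theorem result : ∃ (V₁ E₁ V₂ E₂ : Type) (ends₁ : E₁ → Sym2 V₁) (ends₂ : E₂ → Sym2 V₂)
    (H₁ : L2 V₁ →L[ℂ] L2 V₁) (H₂ : L2 V₂ →L[ℂ] L2 V₂),
    Amenable ends₁ ∧ Connected ends₁ ∧ UnifBounded ends₁ (fun _ _ => 1) ∧
      UnifBounded ends₂ (fun _ _ => 1) ∧ Covers ends₁ (fun _ _ => 1) ends₂ (fun _ _ => 1) ∧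
      IsLaplace ends₁ (fun _ _ => 1) H₁ ∧ IsLaplace ends₂ (fun _ _ => 1) H₂ ∧
      ∃ z : ℂ, z ∈ spec H₂ ∧ z ∉ spec H₁ := by
  obtain ⟨H₁, h1, hn1⟩ := exists_op L1 (13 / 4) (by norm_num) L1_bound
  obtain ⟨H₂, h2, -⟩ := exists_op LB 6 (by norm_num) L2_bound
  refine ⟨V1, V1, ℕ, Fin 3 ⊕ ℕ, ends1, ends2, H₁, H₂, amenable1, connected1, bounded1, bounded2,
    covers, fun f v => (h1 f v).trans (laplace1 f.val v), fun f v => (h2 f v).trans (laplace2 f.val v),
    10 / 3, ?_, ?_⟩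
  · change (10 / 3 : ℂ) ∈ spectrum ℂ H₂
    have hmem : Memℓp (fun n : ℕ => (1 / 3 : ℂ) ^ n) 2 := by
      rw [memℓp_gen_iff (by norm_num)]
      simp only [ENNReal.toReal_ofNat, Real.rpow_ofNat, norm_pow]
      refine (summable_geometric_of_lt_one (r := ‖(1 / 3 : ℂ)‖ ^ 2) (by positivity)
        (by norm_num)).congr fun n => ?_
      rw [← pow_mul, ← pow_mul, mul_comm]
    let f : lp (fun _ : ℕ => ℂ) 2 := ⟨_, hmem⟩
    have hf : ∀ n, f n = (1 / 3 : ℂ) ^ n := fun n => rfl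
    have hH : H₂ f = (10 / 3 : ℂ) • f := by
      ext n
      rw [h2, lp.coeFn_smul, Pi.smul_apply, smul_eq_mul]
      rcases n with _ | n
      · change f 0 + (f 0 + (f 0 + f 1)) = _
        simp only [hf]; norm_num
      · change f n + f (n + 2) = _
        simp only [hf]; ring
    intro hu
    obtain ⟨u, hu⟩ := hu
    have h3 : (u : lp (fun _ : ℕ => ℂ) 2 →L[ℂ] lp (fun _ : ℕ => ℂ) 2) f = 0 := by
      rw [hu, ContinuousLinearMap.sub_apply, hH, ContinuousLinearMap.algebraMap_apply, sub_self]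
    have h4 : f = 0 := by
      have := congrArg (fun T : lp (fun _ : ℕ => ℂ) 2 →L[ℂ] lp (fun _ : ℕ => ℂ) 2 => T f) u.inv_mul
      simp only [ContinuousLinearMap.mul_apply, h3, map_zero, ContinuousLinearMap.one_apply] at this
      exact this.symm
    have h5 := hf 0
    rw [h4] at h5
    simp at h5
  · change (10 / 3 : ℂ) ∉ spectrum ℂ H₁
    intro hz
    have h3 := spectrum.norm_le_norm_mul_of_mem hz
    have h4 : ‖(1 : lp (fun _ : V1 => ℂ) 2 →L[ℂ] lp (fun _ : V1 => ℂ) 2)‖ ≤ 1 :=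
      ContinuousLinearMap.norm_id_le
    have h5 : ‖(10 / 3 : ℂ)‖ = 10 / 3 := by simp
    rw [h5] at h3
    nlinarith [norm_nonneg H₁, norm_nonneg (1 : lp (fun _ : V1 => ℂ) 2 →L[ℂ] lp (fun _ : V1 => ℂ) 2)]

end Pool.Agent.Results.MP_5b767b_an.NoInclusion
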